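import Pool.Agent.J6H13.MF.Fin

set_option autoImplicit false

/-!
# Maier's irregularities are frequent

`R(x, y) = (π(x + y) - π(x)) / (y / log x)`. For all `0 < c ≤ 1` and `0 < a ≤ b` there is an
explicit `δ > 0` such that for all large `X` and ALL `y` from `(log X)^a` to `(log X)^b` each of
`R(n, y) ≥ 1 + δ` and `R(n, y) ≤ 1 - δ` holds for at least `X exp(-(log X)^c)` integers `n` of
`(X, 3X]`; the same for `y = (log n)^a`. So the moments of order `k ≥ (log X)^c` of `R(n, y) - 1` are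
at least `(δ/3)^k`.

Method: the matrix of Maier with a modulus composed of some primes near `y^(1/k)`, `k > b/c`
(Legendre's sieve cut at `k` prime factors), so that the modulus is only `exp((log X)^c / 2)`. It rests
on the starting files of helpers 610, 835, 136, 221, 353, 394, 595 (project MS) and on the theorem of
Bombieri and Vinogradov relative to a large modulus.
-/

namespace Pool.Agent.Results.MP_293bbf_nt.FrequencyOfIrregularities

open Finset Filter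

/-- `R(x, y) = (π(x + y) - π(x)) / (y / log x)` -/
noncomputable def R (x y : ℝ) : ℝ :=
  ((Nat.primeCounting ⌊x + y⌋₊ : ℝ) - Nat.primeCounting ⌊x⌋₊) / (y / Real.log x)

/-- `δ(M) = (8 M) ^ (- 2 M)` -/
noncomputable def delta (M : ℕ) : ℝ := 1 / (8 * (M : ℝ)) ^ (2 * M)

/-- Let `0 < c ≤ 1`, `0 < a ≤ b` and let `M` be an integer with `b < c (M - 2)`. For all large `X`:
(1) for all `(log X)^a ≤ y ≤ (log X)^b` at least `X exp(-(log X)^c)` integers `X < n ≤ 3X` have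
`R(n, y) ≥ 1 + δ(M)`, and as many have `R(n, y) ≤ 1 - δ(M)`;
(2) the same with `y = (log n)^b`;
(3) for all `(log X)^a ≤ y ≤ (log X)^b` and `k ≥ (log X)^c` the sum of `|R(n, y) - 1|^k` over
`X < n ≤ 3X` is at least `(δ(M)/3)^k X`. -/
theorem result (c a b : ℝ) (M : ℕ) (hc : 0 < c) (hc1 : c ≤ 1) (ha : 0 < a) (hab : a ≤ b)
    (hM : b < c * ((M : ℝ) - 2)) :
    (∀ᶠ X : ℝ in atTop, ∀ y : ℝ, Real.log X ^ a ≤ y → y ≤ Real.log X ^ b →
      X * Real.exp (-Real.log X ^ c) ≤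
        (((Ioc ⌊X⌋₊ ⌊3 * X⌋₊).filter (fun n : ℕ => 1 + delta M ≤ R n y)).card : ℝ) ∧
      X * Real.exp (-Real.log X ^ c) ≤
        (((Ioc ⌊X⌋₊ ⌊3 * X⌋₊).filter (fun n : ℕ => R n y ≤ 1 - delta M)).card : ℝ)) ∧
    (∀ᶠ X : ℝ in atTop,
      X * Real.exp (-Real.log X ^ c) ≤
        (((Ioc ⌊X⌋₊ ⌊3 * X⌋₊).filter (fun n : ℕ => 1 + delta M ≤ R n (Real.log n ^ b))).card : ℝ) ∧
      X * Real.exp (-Real.log X ^ c) ≤
        (((Ioc ⌊X⌋₊ ⌊3 * X⌋₊).filter (fun n : ℕ => R n (Real.log n ^ b) ≤ 1 - delta M)).card : ℝ)) ∧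
    (∀ᶠ X : ℝ in atTop, ∀ y : ℝ, Real.log X ^ a ≤ y → y ≤ Real.log X ^ b →
      ∀ k : ℕ, Real.log X ^ c ≤ k →
        (delta M / 3) ^ k * X ≤ ∑ n ∈ Ioc ⌊X⌋₊ ⌊3 * X⌋₊, |R n y - 1| ^ k) := by
  have key : ∀ (X : ℝ), 0 < X → ∀ (p q : ℕ → Prop) [DecidablePred (fun n : ℕ => X < n ∧ p n)]
      [DecidablePred q], (∀ n, p n → q n) →
      (((Icc 1 ⌊3 * X⌋₊).filter (fun n : ℕ => X < n ∧ p n)).card : ℝ) ≤
        (((Ioc ⌊X⌋₊ ⌊3 * X⌋₊).filter q).card : ℝ) := by
    intro X hX p q _ _ hpq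
    have h : (Icc 1 ⌊3 * X⌋₊).filter (fun n : ℕ => X < n ∧ p n) ⊆ (Ioc ⌊X⌋₊ ⌊3 * X⌋₊).filter q := by
      intro n hn
      rw [mem_filter, mem_Icc] at hn
      rw [mem_filter, mem_Ioc]
      exact ⟨⟨(Nat.floor_lt hX.le).2 hn.2.1, hn.1.2⟩, hpq n hn.2.2⟩
    exact_mod_cast card_le_card h
  have hM2 : 2 < M := by
    by_contra hcon
    have h1 : (M : ℝ) ≤ 2 := by exact_mod_cast not_lt.1 hcon
    nlinarith
  have hδ : 0 < delta M := Pool.Agent.J6H13.MF.dl_pos (M := M) (by omega)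
  refine ⟨?_, ?_, ?_⟩
  · filter_upwards [Pool.Agent.J6H13.MF.freq c a b M hc hc1 ha hab hM, eventually_gt_atTop (0 : ℝ)]
      with X h hX y hy0 hy1
    constructor
    · refine (h y hy0 hy1 1 (Or.inl rfl)).trans
        (key X hX (fun n => 5 / 4 * delta M ≤ 1 * (R n y - 1)) _ fun n hn => ?_)
      linarith
    · refine (h y hy0 hy1 (-1) (Or.inr rfl)).trans
        (key X hX (fun n => 5 / 4 * delta M ≤ (-1) * (R n y - 1)) _ fun n hn => ?_)
      linarith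
  · filter_upwards [Pool.Agent.J6H13.MF.freqn c b M hc hc1 (ha.trans_le hab) hM,
      eventually_gt_atTop (0 : ℝ)] with X h hX
    constructor
    · refine (h 1 (Or.inl rfl)).trans
        (key X hX (fun n => delta M ≤ 1 * (R n (Real.log n ^ b) - 1)) _ fun n hn => ?_)
      linarith
    · refine (h (-1) (Or.inr rfl)).trans
        (key X hX (fun n => delta M ≤ (-1) * (R n (Real.log n ^ b) - 1)) _ fun n hn => ?_)
      linarith
  · filter_upwards [Pool.Agent.J6H13.MF.moments c a b M hc hc1 ha hab hM,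
      eventually_gt_atTop (0 : ℝ)] with X h hX y hy0 hy1 k hk
    refine (h y hy0 hy1 k hk).trans (le_of_eq ?_)
    apply sum_congr _ (fun _ _ => rfl)
    ext n
    rw [mem_filter, mem_Icc, mem_Ioc]
    constructor
    · rintro ⟨⟨h1, h2⟩, h3⟩
      exact ⟨(Nat.floor_lt hX.le).2 h3, h2⟩
    · rintro ⟨h1, h2⟩
      exact ⟨⟨by omega, h2⟩, (Nat.floor_lt hX.le).1 h1⟩

end Pool.Agent.Results.MP_293bbf_nt.FrequencyOfIrregularities
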