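import Mathlib
import Pool.Agent.J6H13.UM.RI2
import Pool.Agent.J6H13.UM.Mai4

set_option autoImplicit false

/-!
# Uniform asymptotics in intervals longer than all log-powers: sequential random models of the primes

The question is whether for every `ε > 0` there is `N > 1` such that `|R(x, y) - 1| ≤ ε` for all `x ≥ N` and
`(log x) ^ N ≤ y ≤ x`, where `R(x, y)` is the number of the primes in `(x, x + y]` divided by `y / log x`.  We consider
random models of the primes with a growing sieve: the integers are decided one after the other; no `m` with a prime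
factor `q ∈ P`, `q ≤ z(m)`, is chosen; the conditional probability of choosing `m + 1` (without such prime factors)
given the past is asymptotic to `W / log m`, `W = ∏ (1 - 1/q)⁻¹` over the primes `q ∈ P`, `q ≤ z(m + 1)`.  Here `P` is
any set of primes, and `z` is monotone with `z(m) ≤ (log m) ^ C`.  No independence and no rate is assumed.

(1) For all `ε > 0` and `C` there is `D` such that in all these models almost surely `|R(x, y) - 1| ≤ ε` for all large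
`x` and all `y` with `(log x) ^ D ≤ y ≤ x`.
(2) In all these models (for all `C`) the assertion of the question holds almost surely.
(3) If `P` is the set of all primes and `z(m) ≥ (log m) ^ θ` for some `θ > 0`, the exponent `N` has to tend to infinity
as `ε` tends to zero (Maier's theorem in the models): for all `a ≥ 4` there is `δ > 0`, depending on `θ` and `a`, such
that in all these models almost surely for all large `X` and all `y` with `(log X) ^ 4 ≤ y ≤ (log X) ^ a` there are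
`x, x'` in `(X, 2 X]` with `R(x, y) ≥ 1 + δ` and `R(x', y) ≤ 1 - δ`.

The proof of (1) combines the law of large numbers for families of sets of the starting project `Pool.Agent.R960.Fam`,
and the fundamental lemma of the sieve (`Pool.Agent.N792.fl_gen'`) on the intervals on which `z` is constant.  The proof
of (3) is Maier's matrix method in the models, with a modulus composed of primes below `(log X) ^ θ`, chosen as in
`MP_293bbf_nt.FrequencyOfIrregularities` (the starting library `Pool.Agent.N610.MS`).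
-/

open MeasureTheory Filter
open scoped Topology

namespace Pool.Agent.Results.MP_293bbf_nt.GrowingSieveModels

/-- `m` has no prime factor `q ∈ P`, `q ≤ z m` -/
def Rough (P : Set ℕ) (z : ℕ → ℕ) (m : ℕ) : Prop := ∀ q ∈ P, q.Prime → q ≤ z m → ¬ q ∣ m

open Classical in
/-- `∏ (1 - 1/q)⁻¹` over the primes `q ≤ x` in `P` -/
noncomputable def W (P : Set ℕ) (x : ℕ) : ℝ :=
  ∏ q ∈ (Finset.Icc 1 x).filter (fun q => q.Prime ∧ q ∈ P), (1 - (q : ℝ)⁻¹)⁻¹

/-- a sequential random model of the primes sieved by the primes `q ∈ P`, `q ≤ z(m)` -/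
structure IsModel {Ω : Type} [mΩ : MeasurableSpace Ω] (μ : Measure Ω) (ℱ : Filtration ℕ mΩ)
    (S : ℕ → Set Ω) (P : Set ℕ) (z : ℕ → ℕ) : Prop where
  /-- whether `n` is chosen is known at the time `n` -/
  adapted : ∀ n, MeasurableSet[ℱ n] (S n)
  /-- no `n` with a prime factor `q ∈ P`, `q ≤ z n`, is chosen -/
  sieved : ∀ n, ¬ Rough P z n → S n = ∅
  /-- the conditional probability of `S (n + 1)` given `ℱ n` is asymptotic to `W P (z (n + 1)) / log n`
  along the `n` with `Rough P z (n + 1)` -/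
  density : ∀ᵐ ω ∂μ, Tendsto (fun n : ℕ =>
    (μ[(S (n + 1)).indicator (fun _ => (1 : ℝ)) | ℱ n]) ω * Real.log n / W P (z (n + 1)))
    (atTop ⊓ 𝓟 {n : ℕ | Rough P z (n + 1)}) (𝓝 1)

/-- the number of the elements of `S` in `(x, x + y]`, divided by `y / log x` -/
noncomputable def R (S : Set ℕ) (x y : ℝ) : ℝ :=
  ({m : ℕ | m ∈ S ∧ x < m ∧ (m : ℝ) ≤ x + y}.ncard : ℝ) / (y / Real.log x)

lemma R_eq {Ω : Type} (A : ℕ → Set Ω) (ω : Ω) (x y : ℝ) (hx : 0 ≤ x) (hy : 0 ≤ y) :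
    R {m | ω ∈ A m} x y =
      (∑ m ∈ Finset.Ioc ⌊x⌋₊ ⌊x + y⌋₊, Pool.Agent.R528.RM.In A m ω) / (y / Real.log x) := by
  classical
  unfold R
  congr 1
  have e1 : {m : ℕ | m ∈ {m | ω ∈ A m} ∧ x < m ∧ (m : ℝ) ≤ x + y} =
      (((Finset.Ioc ⌊x⌋₊ ⌊x + y⌋₊).filter (fun m => ω ∈ A m) : Finset ℕ) : Set ℕ) := by
    ext m
    rw [Finset.mem_coe, Finset.mem_filter, Finset.mem_Ioc, Nat.floor_lt hx, Nat.le_floor_iff (by linarith)]
    constructor
    · rintro ⟨h1, h2, h3⟩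
      exact ⟨⟨h2, h3⟩, h1⟩
    · rintro ⟨⟨h2, h3⟩, h1⟩
      exact ⟨h1, h2, h3⟩
  rw [e1, Set.ncard_coe_finset, Finset.card_filter]
  push_cast
  refine Finset.sum_congr rfl fun m _ => ?_
  unfold Pool.Agent.R528.RM.In
  by_cases h : ω ∈ A m
  · rw [if_pos h, Set.indicator_of_mem h]
  · rw [if_neg h, Set.indicator_of_notMem h]

lemma main (ε : ℝ) (hε : 0 < ε) (C : ℕ) : ∃ D : ℕ, ∀ (P : Set ℕ) (z : ℕ → ℕ), Monotone z →
    (∀ᶠ n : ℕ in atTop, (z n : ℝ) ≤ Real.log n ^ C) →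
    ∀ {Ω : Type} [mΩ : MeasurableSpace Ω] (μ : Measure Ω) [IsProbabilityMeasure μ]
      (ℱ : Filtration ℕ mΩ) (S : ℕ → Set Ω), IsModel μ ℱ S P z →
      ∀ᵐ ω ∂μ, ∀ᶠ x : ℝ in atTop, ∀ y : ℝ, Real.log x ^ D ≤ y → y ≤ x → |R {m | ω ∈ S m} x y - 1| ≤ ε := by
  obtain ⟨D, h⟩ := Pool.Agent.J6H13.UM.regular ε hε C
  refine ⟨D, ?_⟩
  intro P z hzm hz Ω mΩ μ _ ℱ S hM
  filter_upwards [h P z hzm hz ⟨hM.adapted, hM.sieved, hM.density⟩] with ω hω
  filter_upwards [hω, eventually_ge_atTop 1] with x hx h1 y hy1 hy2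
  have hy0 : 0 ≤ y := le_trans (pow_nonneg (Real.log_nonneg h1) D) hy1
  rw [R_eq S ω x y (by linarith) hy0]
  exact hx y hy1 hy2

lemma R_nat {Ω : Type} (A : ℕ → Set Ω) (ω : Ω) (x : ℕ) (y : ℝ) (hy : 0 ≤ y) :
    R {m | ω ∈ A m} x y =
      (∑ m ∈ Finset.Ioc x (x + ⌊y⌋₊), Pool.Agent.R528.RM.In A m ω) / (y / Real.log x) := by
  rw [R_eq A ω x y (Nat.cast_nonneg x) hy, Nat.floor_natCast, add_comm (x : ℝ) y, Nat.floor_add_natCast hy,
    add_comm ⌊y⌋₊ x]

/-- In the models almost surely the assertion of the question holds, the exponent of the logarithm depending on `ε`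
and the range of the sieve only; and this exponent tends to infinity as `ε` tends to zero, if the range of the sieve
by all primes is at least a power of the logarithm. -/
theorem result :
    (∀ ε : ℝ, 0 < ε → ∀ C : ℕ, ∃ D : ℕ, ∀ (P : Set ℕ) (z : ℕ → ℕ), Monotone z →
      (∀ᶠ n : ℕ in atTop, (z n : ℝ) ≤ Real.log n ^ C) →
      ∀ {Ω : Type} [mΩ : MeasurableSpace Ω] (μ : Measure Ω) [IsProbabilityMeasure μ]
        (ℱ : Filtration ℕ mΩ) (S : ℕ → Set Ω), IsModel μ ℱ S P z →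
        ∀ᵐ ω ∂μ, ∃ x0 : ℝ, ∀ x y : ℝ, x0 ≤ x → Real.log x ^ D ≤ y → y ≤ x →
          |R {m | ω ∈ S m} x y - 1| ≤ ε) ∧
    (∀ (C : ℕ) (P : Set ℕ) (z : ℕ → ℕ), Monotone z →
      (∀ᶠ n : ℕ in atTop, (z n : ℝ) ≤ Real.log n ^ C) →
      ∀ {Ω : Type} [mΩ : MeasurableSpace Ω] (μ : Measure Ω) [IsProbabilityMeasure μ]
        (ℱ : Filtration ℕ mΩ) (S : ℕ → Set Ω), IsModel μ ℱ S P z →
        ∀ᵐ ω ∂μ, ∀ ε : ℝ, 0 < ε → ∃ N : ℝ, 1 < N ∧ ∀ x y : ℝ, N ≤ x → Real.log x ^ N ≤ y → y ≤ x →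
          |R {m | ω ∈ S m} x y - 1| ≤ ε) ∧
    (∀ θ : ℝ, 0 < θ → ∀ (C : ℕ) (a : ℝ), 4 ≤ a → ∃ δ : ℝ, 0 < δ ∧ ∀ z : ℕ → ℕ, Monotone z →
      (∀ᶠ n : ℕ in atTop, Real.log n ^ θ ≤ z n) → (∀ᶠ n : ℕ in atTop, (z n : ℝ) ≤ Real.log n ^ C) →
      ∀ {Ω : Type} [mΩ : MeasurableSpace Ω] (μ : Measure Ω) [IsProbabilityMeasure μ]
        (ℱ : Filtration ℕ mΩ) (S : ℕ → Set Ω), IsModel μ ℱ S Set.univ z →
        ∀ᵐ ω ∂μ, ∀ᶠ X : ℕ in atTop, ∀ y : ℝ, Real.log X ^ (4 : ℝ) ≤ y → y ≤ Real.log X ^ a →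
          (∃ x : ℕ, X < x ∧ x ≤ 2 * X ∧ 1 + δ ≤ R {m | ω ∈ S m} x y) ∧
          (∃ x : ℕ, X < x ∧ x ≤ 2 * X ∧ R {m | ω ∈ S m} x y ≤ 1 - δ)) := by
  refine ⟨?_, ?_, ?_⟩
  · intro ε hε C
    obtain ⟨D, h⟩ := main ε hε C
    refine ⟨D, ?_⟩
    intro P z hzm hz Ω mΩ μ _ ℱ S hM
    filter_upwards [h P z hzm hz μ ℱ S hM] with ω hω
    obtain ⟨x0, hx0⟩ := eventually_atTop.1 hω
    exact ⟨x0, fun x y h1 h2 h3 => hx0 x h1 y h2 h3⟩
  · intro C P z hzm hz Ω mΩ μ _ ℱ S hM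
    have h : ∀ k : ℕ, ∃ D : ℕ, ∀ᵐ ω ∂μ, ∀ᶠ x : ℝ in atTop, ∀ y : ℝ, Real.log x ^ D ≤ y → y ≤ x →
        |R {m | ω ∈ S m} x y - 1| ≤ 1 / ((k : ℝ) + 1) := by
      intro k
      obtain ⟨D, h⟩ := main (1 / ((k : ℝ) + 1)) (by positivity) C
      exact ⟨D, h P z hzm hz μ ℱ S hM⟩
    choose D hD using h
    filter_upwards [ae_all_iff.2 hD] with ω hω ε hε
    obtain ⟨k, hk⟩ := exists_nat_one_div_lt hε
    obtain ⟨x0, hx0⟩ := eventually_atTop.1 (hω k)
    refine ⟨max (D k : ℝ) (max x0 3), lt_of_lt_of_le (by norm_num) ((le_max_right _ _).trans (le_max_right _ _)), ?_⟩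
    intro x y h1 h2 h3
    have h4 : x0 ≤ x := ((le_max_left _ _).trans (le_max_right _ _)).trans h1
    have h5 : 3 ≤ x := ((le_max_right _ _).trans (le_max_right _ _)).trans h1
    have h6 : 1 ≤ Real.log x := by
      rw [Real.le_log_iff_exp_le (by linarith)]
      have := Real.exp_one_lt_d9
      linarith
    have h7 : Real.log x ^ (D k) ≤ y := by
      refine le_trans ?_ h2
      rw [← Real.rpow_natCast]
      exact Real.rpow_le_rpow_of_exponent_le h6 (le_max_left _ _)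
    exact (hx0 x h4 y h7 h3).trans hk.le
  · intro θ hθ C a ha
    obtain ⟨δ, hδ, h⟩ := Pool.Agent.J6H13.UM.maier θ hθ C a ha
    refine ⟨δ, hδ, ?_⟩
    intro z hzm hzθ hz Ω mΩ μ _ ℱ S hM
    filter_upwards [h z hzm hzθ hz ⟨hM.adapted, hM.sieved, hM.density⟩] with ω hω
    filter_upwards [hω, Pool.Agent.J6H13.UM.logN.eventually_ge_atTop 0] with X hX hX0 y hy0 hy1
    have hy : 0 ≤ y := le_trans (Real.rpow_nonneg hX0 _) hy0
    constructor
    · obtain ⟨x, h1, h2, h3⟩ := hX y hy0 hy1 1 (Or.inl rfl)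
      refine ⟨x, h1, h2, ?_⟩
      rw [R_nat S ω x y hy]
      linarith
    · obtain ⟨x, h1, h2, h3⟩ := hX y hy0 hy1 (-1) (Or.inr rfl)
      refine ⟨x, h1, h2, ?_⟩
      rw [R_nat S ω x y hy]
      linarith

end Pool.Agent.Results.MP_293bbf_nt.GrowingSieveModels
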