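import Pool.Agent.J6H52.Jump.Primes

/-!
# A jump inequality for the primes in short intervals

`R(x, y) = (π(x + y) - π(x)) / (y / log x)`. In every window `(X, X + H]` with `X ^ δ ≤ H ≤ X` the
average number of `ε`-jumps of the function `y ↦ R(n, y)` on the WHOLE range `log X ≤ y ≤ H` is at
most `C / (δ ε) ^ 2`, with an absolute constant `C`.

Proof (files `Pool/Agent/J6H52/Jump`). We prove the jump inequality for the averages over `[n, n + y)`
of any nonnegative function on the integers in terms of its `L²` norm after averaging over dyadic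
intervals of length about `log X` only: decomposition into martingale differences, estimates for the
quadratic variation of the averages within a dyadic block of lengths with geometric decay in the
distance of the scales (by explicit control functions), and a greedy stopping time argument for the
dyadic averages. For the primes this norm is bounded by Selberg's upper bound for prime pairs, which
is in the starting files, for all windows of length `H ≥ X ^ δ`.
-/

set_option autoImplicit false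

open Filter Finset

namespace Pool.Agent.Results.MP_293bbf_nt.JumpInequality

/-- `R(x, y) = (π(x + y) - π(x)) / (y / log x)` -/
noncomputable def R (x y : ℝ) : ℝ :=
  ((Nat.primeCounting ⌊x + y⌋₊ : ℝ) - Nat.primeCounting ⌊x⌋₊) / (y / Real.log x)

/-- `F` has (at least) `J` jumps larger than `ε` on `[a, b]`: there are
`a ≤ s 0 < t 0 ≤ s 1 < t 1 ≤ ... ≤ s (J - 1) < t (J - 1) ≤ b` with `|F (t i) - F (s i)| > ε`. -/
def Jumps (F : ℝ → ℝ) (ε a b : ℝ) (J : ℕ) : Prop :=
  ∃ s t : ℕ → ℝ, (∀ i < J, a ≤ s i ∧ s i < t i ∧ t i ≤ b ∧ ε < |F (t i) - F (s i)|) ∧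
    ∀ i, i + 1 < J → t i ≤ s (i + 1)

open Classical in
/-- There is an absolute constant `C` such that for all `0 < δ ≤ 1`, all large integers `X`, all
integers `H` with `X ^ δ ≤ H ≤ X` and all `ε > 0`:
(1) if for every integer `n` in `(X, X + H]` the function `y ↦ R(n, y)` has `J(n)` jumps larger than
`ε` on `[log X, H]`, then the sum of the `J(n)` is at most `C H / (δ ε) ^ 2`;
(2) for any lengths `log X ≤ T 0 ≤ T 1 ≤ ... ≤ T r ≤ H`, the numbers of the integers `n` in
`(X, X + H]` for which `y ↦ R(n, y)` takes two values with difference larger than `ε` on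
`[T i, T (i + 1)]` have sum over `i < r` at most `C H / (δ ε) ^ 2`. -/
theorem result : ∃ C : ℝ, 0 < C ∧ ∀ δ : ℝ, 0 < δ → δ ≤ 1 → ∀ᶠ X : ℕ in atTop, ∀ H : ℕ,
    (X : ℝ) ^ δ ≤ H → H ≤ X → ∀ ε : ℝ, 0 < ε →
    (∀ J : ℕ → ℕ, (∀ n ∈ Ioc X (X + H), Jumps (R n) ε (Real.log X) H (J n)) →
      ∑ n ∈ Ioc X (X + H), (J n : ℝ) ≤ C / (δ * ε) ^ 2 * H) ∧
    (∀ (r : ℕ) (T : ℕ → ℝ), Real.log X ≤ T 0 → (∀ i < r, T i ≤ T (i + 1)) → T r ≤ H →
      ∑ i ∈ range r, (((Ioc X (X + H)).filter (fun n : ℕ =>
        ∃ y y' : ℝ, T i ≤ y ∧ y ≤ y' ∧ y' ≤ T (i + 1) ∧ ε < |R n y' - R n y|)).card : ℝ) ≤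
      C / (δ * ε) ^ 2 * H) := by
  obtain ⟨C, hC, h1⟩ := Pool.Agent.J6H52.Jump.main
  refine ⟨C, hC, fun δ hδ hδ1 => ?_⟩
  filter_upwards [h1 δ hδ hδ1] with X hX H hH1 hH2 ε hε
  have hm := hX H hH1 hH2 ε hε
  refine ⟨hm, fun r T hT0 hT hTr => ?_⟩
  have h2 := hm (fun n => ((range r).filter (fun i =>
    ∃ y y' : ℝ, T i ≤ y ∧ y ≤ y' ∧ y' ≤ T (i + 1) ∧ ε < |R n y' - R n y|)).card)
    (fun n _ => by
      have h3 := (Pool.Agent.J6H52.Jump.jumps_blocks (R n) hε T r hT).2
      exact h3.mono hT0 hTr)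
  refine le_trans (le_of_eq ?_) h2
  have h4 : ∀ (s : Finset ℕ) (P : ℕ → Prop), ((s.filter P).card : ℝ) =
      ∑ i ∈ s, if P i then (1 : ℝ) else 0 := by
    intro s P
    rw [← sum_filter, sum_const, nsmul_eq_mul, mul_one]
  simp only [h4]
  rw [sum_comm]

end Pool.Agent.Results.MP_293bbf_nt.JumpInequality
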