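import Pool.Agent.J6H13.MF.Fin2
import Pool.Agent.J6H13.MF.TabA
import Pool.Agent.J6H13.MF.TabB
import Pool.Agent.J6H13.MF.TabC

set_option autoImplicit false

/-!
# Larger constants in Maier's theorem

`R(x, y) = (π(x + y) - π(x)) / (y / log x)`, `U(a) = limsup R(x, (log x)^a)`,
`L(a) = liminf R(x, (log x)^a)`. Maier's matrices with the product of ALL primes up to `z` as modulus
give `U(a) ≥ e^γ sup_{u ≥ a} ω(u)` and `L(a) ≤ e^γ inf_{u ≥ a} ω(u)`, `ω` the function of Buchstab.
Here the modulus is the product of the primes of `(z^α, z]` only (less the primes which have to be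
removed in the theorem of Bombieri and Vinogradov relative to this modulus), `α` chosen for every
`u`. The density of the integers up to `z^u` free of these primes is estimated by a recursion over
`400` cells of primes, which is proved in `Pool.Agent.J6H13.MF.Dp` and `Cert` and evaluated by the
kernel in `TabA`, `TabB`, `TabC`.
-/

namespace Pool.Agent.Results.MP_293bbf_nt.LargerConstants

open Finset Filter

/-- `R(x, y) = (π(x + y) - π(x)) / (y / log x)` -/
noncomputable def R (x y : ℝ) : ℝ :=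
  ((Nat.primeCounting ⌊x + y⌋₊ : ℝ) - Nat.primeCounting ⌊x⌋₊) / (y / Real.log x)

/-- For `(u, κ)` one of `(7/5, 1.308)`, `(3/2, 1.274)`, `(7/4, 1.171)`, `(2, 1.075)`, `(9/4, 1.021)`
and all `0 < a ≤ u` the upper limit of `R(x, (log x)^a)` is at least `κ`, and for some `η > 0` and all
large `X` at least `X exp(-(log X)^(a/u - η))` integers `X < n ≤ 3X` have `R(n, (log n)^a) ≥ κ`.

For `(u, κ)` one of `(11/10, 0.371)`, `(5/4, 0.66)`, `(7/5, 0.825)`, `(23/10, 0.971)`,
`(5/2, 0.98)`, `(11/4, 0.992)` and all `0 < a ≤ u` the lower limit of `R(x, (log x)^a)` is at most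
`κ`, and for some `η > 0` and all large `X` at least `X exp(-(log X)^(a/u - η))` integers
`X < n ≤ 3X` have `R(n, (log n)^a) ≤ κ`. -/
theorem result :
    (∀ q ∈ ([(7 / 5, 1308 / 1000), (3 / 2, 1274 / 1000), (7 / 4, 1171 / 1000), (2, 1075 / 1000),
        (9 / 4, 1021 / 1000)] : List (ℝ × ℝ)), ∀ a : ℝ, 0 < a → a ≤ q.1 →
      (q.2 : EReal) ≤ limsup (fun x : ℝ => ((R x (Real.log x ^ a) : ℝ) : EReal)) atTop ∧
      ∃ η : ℝ, 0 < η ∧ ∀ᶠ X : ℝ in atTop, X * Real.exp (-Real.log X ^ (a / q.1 - η)) ≤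
        (((Ioc ⌊X⌋₊ ⌊3 * X⌋₊).filter (fun n : ℕ => q.2 ≤ R n (Real.log n ^ a))).card : ℝ)) ∧
    (∀ q ∈ ([(11 / 10, 371 / 1000), (5 / 4, 660 / 1000), (7 / 5, 825 / 1000), (23 / 10, 971 / 1000),
        (5 / 2, 980 / 1000), (11 / 4, 992 / 1000)] : List (ℝ × ℝ)), ∀ a : ℝ, 0 < a → a ≤ q.1 →
      liminf (fun x : ℝ => ((R x (Real.log x ^ a) : ℝ) : EReal)) atTop ≤ (q.2 : EReal) ∧
      ∃ η : ℝ, 0 < η ∧ ∀ᶠ X : ℝ in atTop, X * Real.exp (-Real.log X ^ (a / q.1 - η)) ≤
        (((Ioc ⌊X⌋₊ ⌊3 * X⌋₊).filter (fun n : ℕ => R n (Real.log n ^ a) ≤ q.2)).card : ℝ)) := by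
  constructor
  · intro q hq a ha hau
    simp only [List.mem_cons, List.not_mem_nil, or_false] at hq
    rcases hq with rfl | rfl | rfl | rfl | rfl
    · exact Pool.Agent.J6H13.MF.rowU (by norm_num) (by norm_num) (by norm_num) (by norm_num)
        Pool.Agent.J6H13.MF.tU1 (by norm_num) (by norm_num) a ha hau
    · exact Pool.Agent.J6H13.MF.rowU (by norm_num) (by norm_num) (by norm_num) (by norm_num)
        Pool.Agent.J6H13.MF.tU2 (by norm_num) (by norm_num) a ha hau
    · exact Pool.Agent.J6H13.MF.rowU (by norm_num) (by norm_num) (by norm_num) (by norm_num)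
        Pool.Agent.J6H13.MF.tU3 (by norm_num) (by norm_num) a ha hau
    · exact Pool.Agent.J6H13.MF.rowU (by norm_num) (by norm_num) (by norm_num) (by norm_num)
        Pool.Agent.J6H13.MF.tU4 (by norm_num) (by norm_num) a ha hau
    · exact Pool.Agent.J6H13.MF.rowU (by norm_num) (by norm_num) (by norm_num) (by norm_num)
        Pool.Agent.J6H13.MF.tU5 (by norm_num) (by norm_num) a ha hau
  · intro q hq a ha hau
    simp only [List.mem_cons, List.not_mem_nil, or_false] at hq
    rcases hq with rfl | rfl | rfl | rfl | rfl | rfl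
    · exact Pool.Agent.J6H13.MF.rowL (by norm_num) (by norm_num) (by norm_num) (by norm_num)
        Pool.Agent.J6H13.MF.tL1 (by norm_num) (by norm_num) a ha hau
    · exact Pool.Agent.J6H13.MF.rowL (by norm_num) (by norm_num) (by norm_num) (by norm_num)
        Pool.Agent.J6H13.MF.tL2 (by norm_num) (by norm_num) a ha hau
    · exact Pool.Agent.J6H13.MF.rowL (by norm_num) (by norm_num) (by norm_num) (by norm_num)
        Pool.Agent.J6H13.MF.tL3 (by norm_num) (by norm_num) a ha hau
    · exact Pool.Agent.J6H13.MF.rowL (by norm_num) (by norm_num) (by norm_num) (by norm_num)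
        Pool.Agent.J6H13.MF.tL4 (by norm_num) (by norm_num) a ha hau
    · exact Pool.Agent.J6H13.MF.rowL (by norm_num) (by norm_num) (by norm_num) (by norm_num)
        Pool.Agent.J6H13.MF.tL5 (by norm_num) (by norm_num) a ha hau
    · exact Pool.Agent.J6H13.MF.rowL (by norm_num) (by norm_num) (by norm_num) (by norm_num)
        Pool.Agent.J6H13.MF.tL6 (by norm_num) (by norm_num) a ha hau

end Pool.Agent.Results.MP_293bbf_nt.LargerConstants
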